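import Mathlib
import Pool.Agent.W732.Cor.Stm2
import Pool.Agent.H326R3.CB19
import Pool.Agent.H326R3.CB4

/-!
COR-LOC: uniform local solutions via characters of the algebra of bounded sequences.
-/

set_option autoImplicit false

open Metric Set Filter Topology Complex WeakDual
open Pool.Agent.H720R2.Cor (Ball IsAutomorphism)
open Pool.Agent.H326R3.CB

namespace Pool.Agent.W598.Cor

variable {m : ℕ}

/-- sequences of constants -/
noncomputable def Ks (c : ℕ → ℂ) {C : ℝ} (hC : ∀ k, ‖c k‖ ≤ C) : Hs m :=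
  mks (f := fun k _ => c k) (fun _ => differentiableOn_const _) (C := C) (fun k _ _ => hC k)

/-- sequences are determined at interior points -/
theorem interior (χ : Hs m →ₐ[ℂ] ℂ) (q : V m) (hq : ‖q‖ < 1)
    (hχ : ∀ i, χ (cs (Lw (EuclideanSpace.single i (1:ℂ)))) = q i)
    (f : ℕ → V m → ℂ) (hf : ∀ k, DifferentiableOn ℂ (f k) (ball 0 1)) {C : ℝ}
    (hC : ∀ k, ∀ z ∈ ball (0 : V m) 1, ‖f k z‖ ≤ C) :
    χ (mks hf hC) =
      χ (Ks (fun k => f k q) (C := C) (fun k => hC k q (by simpa using hq))) := by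
  obtain ⟨Γ, hΓ⟩ : ∃ Γ : Fin m → Hs m, Γ = fun i => mks
      (f := fun k => gam (f k) q (EuclideanSpace.single i (1:ℂ)))
      (fun k => gam_diff (hf k) (EuclideanSpace.single i (1:ℂ)) hq)
      (C := 44 * C / (1 - ‖q‖) ^ 2)
      (fun k z hz => gam_bd (hf k) (hC k) (by simp) (by simpa using hz) hq) := ⟨_, rfl⟩
  have h1 : mks hf hC = Ks (fun k => f k q) (C := C) (fun k => hC k q (by simpa using hq)) +
      ∑ i, (cs (Lw (EuclideanSpace.single i (1:ℂ))) - Cs (q i)) * Γ i := by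
    apply Hs.ext
    rintro ⟨k, z⟩
    have hz := z.2
    rw [mem_ball_zero_iff] at hz
    have hg := gleason (hf k) hq hz
    change f k z = f k q + (∑ i, (cs (Lw (EuclideanSpace.single i (1:ℂ))) - Cs (q i)) * Γ i).1 (k, z)
    rw [Hs.sum_apply]
    have h2 : ∀ i, ((cs (Lw (EuclideanSpace.single i (1:ℂ))) - Cs (q i)) * Γ i).1 (k, z) =
        ((z : V m) i - q i) * gam (f k) q (EuclideanSpace.single i (1:ℂ)) z := by
      intro i
      rw [hΓ]
      change ((Lw (EuclideanSpace.single i (1:ℂ))).1 z - q i) *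
        gam (f k) q (EuclideanSpace.single i (1:ℂ)) z = _
      rw [Lw_single_apply]
    rw [Finset.sum_congr rfl (fun i _ => h2 i), ← hg]
    ring
  rw [h1, map_add, map_sum]
  have hCc : ∀ c : ℂ, χ (Cs c) = c := fun c => χ.commutes c
  have h3 : ∀ i, χ ((cs (Lw (EuclideanSpace.single i (1:ℂ))) - Cs (q i)) * Γ i) = 0 := by
    intro i
    rw [map_mul, map_sub, hCc, hχ, sub_self, zero_mul]
  simp [h3]

/-- sequences that tend to zero uniformly at `q` -/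
theorem boundary (χ : Hs m →ₐ[ℂ] ℂ)
    (hdom : ∀ (G : Hs m) (C : ℝ), (∀ x, ‖G.1 x‖ ≤ C) → ‖χ G‖ ≤ C) (q : V m) (hq : ‖q‖ = 1)
    (hχ : χ (cs (Lw q)) = 1) (R : Hs m)
    (hr : ∀ ε : ℝ, 0 < ε → ∃ ρ > 0, ∀ (k : ℕ) (z : Bt m), ‖(z : V m) - q‖ < ρ →
      ‖R.1 (k, z)‖ ≤ ε) : χ R = 0 := by
  obtain ⟨P, hP⟩ : ∃ P : Hs m, P = Cs (1/2) * (1 + cs (Lw q)) := ⟨_, rfl⟩
  have hCc : ∀ c : ℂ, χ (Cs c) = c := fun c => χ.commutes c
  have hPχ : χ P = 1 := by
    rw [hP, map_mul, hCc, map_add, map_one, hχ]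
    norm_num
  have hPz : ∀ (k : ℕ) (z : Bt m), P.1 (k, z) = 1/2 * (1 + inner ℂ q (z : V m)) := by
    intro k z
    rw [hP]
    rfl
  have hPow : ∀ (j : ℕ) (x : ℕ × Bt m), (P ^ j).1 x = P.1 x ^ j := by
    intro j x
    induction j with
    | zero => simp
    | succ j ih =>
      rw [pow_succ, pow_succ, ← ih]
      rfl
  rw [← norm_le_zero_iff]
  refine le_of_forall_pos_le_add fun ε hε => ?_
  rw [zero_add]
  obtain ⟨ρ₀, hρ₀, h2⟩ := hr ε hε
  obtain ⟨ρ, hρdef⟩ : ∃ ρ, ρ = min ρ₀ 1 := ⟨_, rfl⟩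
  have hρ : 0 < ρ := by rw [hρdef]; exact lt_min hρ₀ one_pos
  have hρ1 : ρ ≤ 1 := by rw [hρdef]; exact min_le_right _ _
  obtain ⟨s, hs⟩ : ∃ s : ℝ, s = 1 - ρ ^ 2 / 4 := ⟨_, rfl⟩
  have hs0 : 0 ≤ s := by rw [hs]; nlinarith
  have hs1 : s < 1 := by rw [hs]; nlinarith [sq_pos_of_pos hρ]
  have hlim : Tendsto (fun k : ℕ => ‖R‖ * s ^ k) atTop (𝓝 0) := by
    have := (tendsto_pow_atTop_nhds_zero_of_lt_one hs0 hs1).const_mul ‖R‖
    simpa using this
  obtain ⟨j, hj⟩ := (hlim.eventually_lt_const hε).exists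
  have hw : ∀ z : Bt m, ‖(inner ℂ q (z : V m) : ℂ)‖ ≤ 1 := by
    intro z
    have hz := z.2
    rw [mem_ball_zero_iff] at hz
    calc ‖(inner ℂ q (z : V m) : ℂ)‖ ≤ ‖q‖ * ‖(z : V m)‖ := norm_inner_le_norm _ _
      _ ≤ 1 * 1 := by rw [hq]; gcongr
      _ = 1 := one_mul _
  have hP1 : ∀ (k : ℕ) (z : Bt m), ‖P.1 (k, z)‖ ≤ 1 := by
    intro k z
    rw [hPz, norm_mul]
    have := norm_add_le (1:ℂ) (inner ℂ q (z : V m))
    have h3 := hw z
    rw [norm_one] at this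
    have h4 : ‖(1/2 : ℂ)‖ = 1/2 := by norm_num
    rw [h4]; linarith
  have hP2 : ∀ (k : ℕ) (z : Bt m), ρ ≤ ‖(z : V m) - q‖ → ‖P.1 (k, z)‖ ^ 2 ≤ s := by
    intro k z hzp
    have hz := z.2
    rw [mem_ball_zero_iff] at hz
    have h3 : ‖(z : V m) - q‖ ^ 2 = ‖(z : V m)‖ ^ 2 - 2 * (inner ℂ q (z : V m) : ℂ).re + 1 := by
      rw [norm_sub_sq (𝕜 := ℂ), hq]
      have : RCLike.re (inner ℂ (z : V m) q : ℂ) = (inner ℂ q (z : V m) : ℂ).re :=
        inner_re_symm (𝕜 := ℂ) _ _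
      rw [this]; ring
    have h4 : ρ ^ 2 ≤ ‖(z : V m) - q‖ ^ 2 := by gcongr
    have h5 : ‖(z : V m)‖ ^ 2 ≤ 1 := by nlinarith [norm_nonneg (z : V m)]
    have h6 : ‖P.1 (k, z)‖ ^ 2 = 1/4 * ‖1 + (inner ℂ q (z : V m) : ℂ)‖ ^ 2 := by
      rw [hPz, norm_mul, mul_pow]; norm_num
    have h7 : ‖1 + (inner ℂ q (z : V m) : ℂ)‖ ^ 2 = 1 + 2 * (inner ℂ q (z : V m) : ℂ).re +
        ‖(inner ℂ q (z : V m) : ℂ)‖ ^ 2 := by
      rw [← Complex.normSq_eq_norm_sq, ← Complex.normSq_eq_norm_sq, Complex.normSq_apply,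
        Complex.normSq_apply]
      simp; ring
    have h8 : ‖(inner ℂ q (z : V m) : ℂ)‖ ^ 2 ≤ 1 := by
      nlinarith [hw z, norm_nonneg (inner ℂ q (z : V m) : ℂ)]
    rw [h6, h7, hs]
    nlinarith
  have hbound : ∀ x : ℕ × Bt m, ‖(R * P ^ (2 * j)).1 x‖ ≤ ε := by
    rintro ⟨k, z⟩
    have h0 : (R * P ^ (2 * j)).1 (k, z) = R.1 (k, z) * (P ^ (2 * j)).1 (k, z) := rfl
    rw [h0, hPow, norm_mul, norm_pow, pow_mul]
    by_cases hzp : ‖(z : V m) - q‖ < ρ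
    · have h3 : ‖R.1 (k, z)‖ ≤ ε := by
        refine h2 k z (hzp.trans_le ?_)
        rw [hρdef]
        exact min_le_left _ _
      have h4 : (‖P.1 (k, z)‖ ^ 2) ^ j ≤ 1 := by
        apply pow_le_one₀ (by positivity)
        exact pow_le_one₀ (norm_nonneg _) (hP1 k z)
      calc ‖R.1 (k, z)‖ * (‖P.1 (k, z)‖ ^ 2) ^ j ≤ ε * 1 := by gcongr
        _ = ε := mul_one _
    · push Not at hzp
      calc ‖R.1 (k, z)‖ * (‖P.1 (k, z)‖ ^ 2) ^ j ≤ ‖R‖ * s ^ j := by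
            gcongr
            · exact R.1.norm_coe_le_norm (k, z)
            · exact hP2 k z hzp
        _ ≤ ε := hj.le
  calc ‖χ R‖ = ‖χ (R * P ^ (2 * j))‖ := by rw [map_mul, map_pow, hPχ, one_pow, mul_one]
    _ ≤ ε := hdom _ _ hbound

/-- limits at boundary points -/
theorem limit (q : V m) (hq : ‖q‖ = 1) (r : ℝ → ℝ) (hr : ∀ ε, 0 < ε → 0 < r ε) (F : V m → ℂ)
    (hF : ∀ ε : ℝ, 0 < ε → ∀ z ∈ ball (0 : V m) 1, ∀ w ∈ ball (0 : V m) 1,
      ‖z - q‖ < r ε → ‖w - q‖ < r ε → ‖F z - F w‖ ≤ ε)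
    (hb : ∀ z ∈ ball (0 : V m) 1, ‖F z‖ ≤ 1) :
    ∃ c : ℂ, ‖c‖ ≤ 1 ∧ ∀ ε : ℝ, 0 < ε → ∀ z ∈ ball (0 : V m) 1, ‖z - q‖ < r ε →
      ‖F z - c‖ ≤ ε := by
  have hne : NeBot (𝓝[ball (0 : V m) 1] q) := by
    rw [← mem_closure_iff_nhdsWithin_neBot, closure_ball (0 : V m) one_ne_zero]
    simp [hq]
  have hmem : ∀ ε : ℝ, 0 < ε → {z | z ∈ ball (0 : V m) 1 ∧ ‖z - q‖ < r ε} ∈
      𝓝[ball (0 : V m) 1] q := by
    intro ε hε
    refine mem_nhdsWithin.2 ⟨ball q (r ε), isOpen_ball, mem_ball_self (hr ε hε), ?_⟩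
    rintro z ⟨h1, h2⟩
    exact ⟨h2, by rwa [mem_ball, dist_eq_norm] at h1⟩
  have hcau : Cauchy (map F (𝓝[ball (0 : V m) 1] q)) := by
    rw [Metric.cauchy_iff]
    refine ⟨inferInstance, fun ε hε => ⟨F '' {z | z ∈ ball (0 : V m) 1 ∧ ‖z - q‖ < r (ε / 2)},
      image_mem_map (hmem _ (by positivity)), ?_⟩⟩
    rintro _ ⟨z, ⟨hz, hz2⟩, rfl⟩ _ ⟨w, ⟨hw, hw2⟩, rfl⟩
    rw [dist_eq_norm]
    exact (hF _ (by positivity) z hz w hw hz2 hw2).trans_lt (by linarith)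
  obtain ⟨c, hc⟩ := CompleteSpace.complete hcau
  have hc' : Tendsto F (𝓝[ball (0 : V m) 1] q) (𝓝 c) := hc
  refine ⟨c, ?_, fun ε hε z hz hzq => ?_⟩
  · refine le_of_tendsto hc'.norm ?_
    filter_upwards [self_mem_nhdsWithin] with z hz
    exact hb z hz
  · have h1 : Tendsto (fun w => ‖F z - F w‖) (𝓝[ball (0 : V m) 1] q) (𝓝 ‖F z - c‖) :=
      (hc'.const_sub (F z)).norm
    refine le_of_tendsto h1 ?_
    filter_upwards [hmem ε hε] with w hw
    exact hF ε hε z hz w hw.1 hzq hw.2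

theorem pw {N : ℕ} {δ : ℝ} (hδ : 0 < δ) (c : Fin N → ℂ) (hc : δ ≤ ∑ i, ‖c i‖) :
    ∃ d : Fin N → ℂ, (∀ i, ‖d i‖ ≤ (N + 1) / δ) ∧ ∑ i, c i * d i = 1 := by
  classical
  have hN1 : (0 : ℝ) < N + 1 := by positivity
  obtain ⟨i, hi⟩ : ∃ i, δ / (N + 1) ≤ ‖c i‖ := by
    by_contra hcon
    push Not at hcon
    have h1 : ∑ i, ‖c i‖ ≤ N * (δ / (N + 1)) := by
      have := Finset.sum_le_card_nsmul (Finset.univ : Finset (Fin N)) (fun i => ‖c i‖)
        (δ / (N + 1)) (fun i _ => (hcon i).le)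
      simpa using this
    have h2 : (N : ℝ) * (δ / (N + 1)) < δ := by
      rw [mul_div_assoc', div_lt_iff₀ hN1]
      nlinarith
    linarith
  have hpos : 0 < ‖c i‖ := lt_of_lt_of_le (by positivity) hi
  have hne : c i ≠ 0 := norm_pos_iff.1 hpos
  refine ⟨fun j => if j = i then 1 / c i else 0, fun j => ?_, ?_⟩
  · by_cases hj : j = i
    · simp only [hj, if_true, norm_div, norm_one]
      rw [div_le_div_iff₀ hpos hδ]
      rw [div_le_iff₀ hN1] at hi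
      linarith
    · simp only [hj, if_false, norm_zero]
      positivity
  · simp [hne]

theorem pw2 {N : ℕ} {δ : ℝ} (hδ : 0 < δ) (c : Fin N → ℂ) (c0 : ℂ)
    (hc : δ ≤ ∑ i, ‖c i‖ + ‖c0‖) :
    ∃ (d : Fin N → ℂ) (d0 : ℂ), (∀ i, ‖d i‖ ≤ (N + 1) / (δ / 2)) ∧ ‖d0‖ ≤ (N + 1) / (δ / 2) ∧
      ∑ i, c i * d i + c0 * d0 = 1 := by
  by_cases h : δ / 2 ≤ ∑ i, ‖c i‖
  · obtain ⟨d, hd, hd2⟩ := pw (by positivity) c h
    exact ⟨d, 0, hd, by rw [norm_zero]; positivity, by rw [hd2]; simp⟩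
  · have h1 : δ / 2 ≤ ‖c0‖ := by linarith
    have h2 : 0 < ‖c0‖ := by linarith
    have hne : c0 ≠ 0 := norm_pos_iff.1 h2
    refine ⟨fun _ => 0, 1 / c0, fun i => by simp only [norm_zero]; positivity, ?_, by simp [hne]⟩
    rw [norm_div, norm_one, div_le_div_iff₀ h2 (by positivity)]
    have h3 : (0 : ℝ) ≤ N := Nat.cast_nonneg N
    nlinarith

/-- the data -/
structure Dat (n N : ℕ) (p : V (n + 1)) (δ : ℝ) (r : V (n + 1) → ℝ → ℝ)
    (F : Fin N → V (n + 1) → ℂ) (G : V (n + 1) → ℂ) : Prop where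
  hF : ∀ i, DifferentiableOn ℂ (F i) (ball 0 1)
  hG : DifferentiableOn ℂ G (ball 0 1)
  hFb : ∀ i, ∀ z ∈ ball (0 : V (n + 1)) 1, ‖F i z‖ ≤ 1
  hGb : ∀ z ∈ ball (0 : V (n + 1)) 1, ‖G z‖ ≤ 1
  hc : ∀ z ∈ ball (0 : V (n + 1)) 1, δ ≤ ∑ i, ‖F i z‖ + ‖G z‖
  heq : ∀ i, ∀ q : V (n + 1), ‖q‖ = 1 → (inner ℂ p q : ℂ) = 0 → ∀ ε : ℝ, 0 < ε →
        ∀ z ∈ ball (0 : V (n + 1)) 1, ∀ w ∈ ball (0 : V (n + 1)) 1,
          ‖z - q‖ < r q ε → ‖w - q‖ < r q ε → ‖F i z - F i w‖ ≤ ε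

/-- solution near `q` by the one coordinate theorem -/
theorem near {n N : ℕ} {p : V (n + 1)} {δ : ℝ} (hδ : 0 < δ) {r : V (n + 1) → ℝ → ℝ}
    (hr : ∀ q ε, 0 < ε → 0 < r q ε) (q : V (n + 1)) (hq : ‖q‖ = 1) (hpq : (inner ℂ p q : ℂ) = 0) :
    ∃ C : ℝ, 0 ≤ C ∧ ∀ (F : Fin N → V (n + 1) → ℂ) (G : V (n + 1) → ℂ), Dat n N p δ r F G →
      ∃ (c d : Fin N → ℂ) (g g₀ : V (n + 1) → ℂ),
        (∀ i, ‖c i‖ ≤ C) ∧ (∀ i, ‖d i‖ ≤ C) ∧
        (∀ i, ∀ ε : ℝ, 0 < ε → ∀ z ∈ ball (0 : V (n + 1)) 1, ‖z - q‖ < r q ε →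
          ‖F i z - c i‖ ≤ ε) ∧
        DifferentiableOn ℂ g (ball 0 1) ∧ DifferentiableOn ℂ g₀ (ball 0 1) ∧
        (∀ z ∈ ball (0 : V (n + 1)) 1, ‖g z‖ ≤ C) ∧ (∀ z ∈ ball (0 : V (n + 1)) 1, ‖g₀ z‖ ≤ C) ∧
        ∀ z ∈ ball (0 : V (n + 1)) 1, ∑ i, c i * d i + (1 - inner ℂ q z) / 2 * g z +
          G z * g₀ z = 1 := by
  obtain ⟨ε₁, hε₁⟩ : ∃ e : ℝ, e = δ / (4 * (N + 1)) := ⟨_, rfl⟩
  have hN1 : (0 : ℝ) < N + 1 := by positivity
  have hε₁0 : 0 < ε₁ := by rw [hε₁]; positivity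
  have hNε : N * ε₁ ≤ δ / 4 := by
    rw [hε₁, mul_div_assoc', div_le_div_iff₀ (by positivity) (by norm_num)]
    nlinarith
  obtain ⟨ρ, hρd⟩ : ∃ ρ, ρ = r q ε₁ := ⟨_, rfl⟩
  have hρ : 0 < ρ := by rw [hρd]; exact hr q ε₁ hε₁0
  obtain ⟨η, hη⟩ : ∃ e : ℝ, e = min (δ / 2) (ρ ^ 2 / 4) := ⟨_, rfl⟩
  have hη0 : 0 < η := by rw [hη]; exact lt_min (by positivity) (by positivity)
  have hη1 : η ≤ δ / 2 := by rw [hη]; exact min_le_left _ _
  have hη2 : η ≤ ρ ^ 2 / 4 := by rw [hη]; exact min_le_right _ _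
  obtain ⟨ψ, hψ, hψ0⟩ := unitary q hq
  obtain ⟨C, hC0, hC⟩ := Pool.Agent.H720R2.HP.oneCoord 1 hη0
  obtain ⟨C', hC'⟩ : ∃ e : ℝ, e = 1 + C + (N + 1) / (δ / 4) := ⟨_, rfl⟩
  have hd0 : 0 ≤ (N + 1 : ℝ) / (δ / 4) := by positivity
  have hCC : C ≤ C' := by rw [hC']; linarith
  have h1C : 1 ≤ C' := by rw [hC']; linarith
  have hdC : (N + 1 : ℝ) / (δ / 4) ≤ C' := by rw [hC']; linarith
  have hC'0 : 0 ≤ C' := by linarith
  refine ⟨C', hC'0, fun F G hD => ?_⟩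
  choose c hc1 hc2 using fun i => limit q hq (r q) (hr q) (F i) (hD.heq i q hq hpq) (hD.hFb i)
  by_cases hA : δ / 4 ≤ ∑ i, ‖c i‖
  · obtain ⟨d, hd1, hd2⟩ := pw (by positivity) c hA
    exact ⟨c, d, fun _ => 0, fun _ => 0, fun i => (hc1 i).trans h1C, fun i => (hd1 i).trans hdC,
      hc2, differentiableOn_const _, differentiableOn_const _,
      fun z _ => by rw [norm_zero]; exact hC'0, fun z _ => by rw [norm_zero]; exact hC'0,
      fun z _ => by rw [hd2]; simp⟩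
  · push Not at hA
    have hmaps : MapsTo (ee (n + 1)).symm (Ball (n + 1)) (ball 0 1) := by
      intro z hz
      rw [mem_ball_zero_iff]
      exact (mem_Ball_iff z).1 hz
    have hmaps2 : MapsTo (ee (n + 1)) (ball 0 1) (Ball (n + 1)) := by
      intro v hv
      rw [mem_Ball_iff, ContinuousLinearEquiv.symm_apply_apply]
      simpa using hv
    have hG' : DifferentiableOn ℂ (fun z => G ((ee (n + 1)).symm z)) (Ball (n + 1)) :=
      hD.hG.comp (ee (n + 1)).symm.differentiable.differentiableOn hmaps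
    obtain ⟨g, g₀, hg, hg₀, hgb, hg₀b, hbez⟩ := hC n ψ hψ (fun _ x => (1 - x) / 2)
      (fun _ => (by fun_prop : Differentiable ℂ fun x : ℂ => (1 - x) / 2).differentiableOn)
      (fun _ x hx => by
        rw [mem_ball_zero_iff] at hx
        rw [norm_div]
        have h2 : ‖(2 : ℂ)‖ = 2 := by norm_num
        rw [h2, div_le_one (by norm_num)]
        calc ‖1 - x‖ ≤ ‖(1:ℂ)‖ + ‖x‖ := norm_sub_le _ _
          _ ≤ 2 := by rw [norm_one]; linarith)
      (fun z => G ((ee (n + 1)).symm z)) hG' (fun z hz => hD.hGb _ (hmaps hz))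
      (fun z hz hsmall => by
        obtain ⟨v, hv⟩ : ∃ v : V (n + 1), v = (ee (n + 1)).symm z := ⟨_, rfl⟩
        have hvb : v ∈ ball (0 : V (n + 1)) 1 := by rw [hv]; exact hmaps hz
        have hv1 : ‖v‖ < 1 := by simpa using hvb
        have hψv : ψ z 0 = inner ℂ q v := by rw [hv]; exact hψ0 z
        have h1 := hsmall 0
        rw [hψv, norm_div] at h1
        have h2' : ‖(2 : ℂ)‖ = 2 := by norm_num
        rw [h2'] at h1
        have h2 : ‖v - q‖ < ρ := by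
          have h3 : ‖v - q‖ ^ 2 = ‖v‖ ^ 2 - 2 * (inner ℂ q v : ℂ).re + 1 := by
            rw [norm_sub_sq (𝕜 := ℂ), hq]
            have : RCLike.re (inner ℂ v q : ℂ) = (inner ℂ q v : ℂ).re := inner_re_symm (𝕜 := ℂ) _ _
            rw [this]; ring
          have h4 : 1 - (inner ℂ q v : ℂ).re ≤ ‖1 - (inner ℂ q v : ℂ)‖ := by
            have := Complex.re_le_norm (1 - (inner ℂ q v : ℂ))
            simpa using this
          have h6 : ‖v‖ ^ 2 ≤ 1 := by nlinarith [norm_nonneg v]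
          have h7 : ‖v - q‖ ^ 2 < ρ ^ 2 := by linarith
          exact lt_of_pow_lt_pow_left₀ 2 hρ.le h7
        have h9 := hD.hc v hvb
        have h10 : ∑ i, ‖F i v‖ ≤ ∑ i, (‖c i‖ + ε₁) := by
          refine Finset.sum_le_sum fun i _ => ?_
          have h11 := hc2 i ε₁ hε₁0 v hvb (by rw [← hρd]; exact h2)
          have h12 := norm_add_le (F i v - c i) (c i)
          rw [sub_add_cancel] at h12
          linarith
        rw [Finset.sum_add_distrib] at h10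
        simp only [Finset.sum_const, Finset.card_univ, Fintype.card_fin, nsmul_eq_mul] at h10
        rw [← hv]
        linarith)
    refine ⟨c, fun _ => 0, fun v => g 0 (ee (n + 1) v), fun v => g₀ (ee (n + 1) v),
      fun i => (hc1 i).trans h1C, fun i => by rw [norm_zero]; exact hC'0, hc2,
      (hg 0).comp (ee (n + 1)).differentiable.differentiableOn hmaps2,
      hg₀.comp (ee (n + 1)).differentiable.differentiableOn hmaps2,
      fun v hv => (hgb 0 _ (hmaps2 hv)).trans hCC, fun v hv => (hg₀b _ (hmaps2 hv)).trans hCC,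
      fun v hv => ?_⟩
    have h1 := hbez (ee (n + 1) v) (hmaps2 hv)
    rw [Fin.sum_univ_one, hψ0, ContinuousLinearEquiv.symm_apply_apply] at h1
    simp only [mul_zero, Finset.sum_const_zero, zero_add]
    exact h1

/-- no character kills all functions -/
theorem no_char {n N : ℕ} (p : V (n + 1)) {δ : ℝ} (hδ : 0 < δ) (r : V (n + 1) → ℝ → ℝ)
    (hr : ∀ q ε, 0 < ε → 0 < r q ε) (F : ℕ → Fin N → V (n + 1) → ℂ) (G : ℕ → V (n + 1) → ℂ)
    (hD : ∀ k, Dat n N p δ r (F k) (G k)) (χ : Hs (n + 1) →ₐ[ℂ] ℂ)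
    (hdom : ∀ (R : Hs (n + 1)) (C : ℝ), (∀ x, ‖R.1 x‖ ≤ C) → ‖χ R‖ ≤ C)
    (h1 : ∀ i, χ (mks (f := fun k => F k i) (fun k => (hD k).hF i) (C := 1)
      (fun k => (hD k).hFb i)) = 0)
    (h2 : χ (mks (f := G) (fun k => (hD k).hG) (C := 1) (fun k => (hD k).hGb)) = 0)
    (h3 : χ (cs (Lw p)) = 0) : False := by
  have hCc : ∀ c : ℂ, χ (Cs c) = c := fun c => χ.commutes c
  -- the point
  obtain ⟨φ, hφ⟩ : ∃ φ : characterSpace ℂ (Hi (n + 1)), ∀ f, φ f = χ (cs f) :=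
    ⟨CharacterSpace.equivAlgHom.symm (χ.comp cs), fun f => rfl⟩
  obtain ⟨q, hq⟩ : ∃ q, q = pt φ := ⟨_, rfl⟩
  have hLw : ∀ a : V (n + 1), χ (cs (Lw a)) = inner ℂ a q := by
    intro a
    rw [← hφ, char_Lw, hq]
  have hqi : ∀ i, χ (cs (Lw (EuclideanSpace.single i (1:ℂ)))) = q i := by
    intro i
    rw [hLw, EuclideanSpace.inner_single_left]
    simp
  have hpq : (inner ℂ p q : ℂ) = 0 := by rw [← hLw, h3]
  rcases lt_or_eq_of_le (pt_norm φ) with hlt | heq1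
  · -- interior
    rw [← hq] at hlt
    have hqb : q ∈ ball (0 : V (n + 1)) 1 := by simpa using hlt
    choose d d0 hd hd0 hid using fun k => pw2 hδ (fun i => F k i q) (G k q) ((hD k).hc q hqb)
    have e1 : ∀ i, χ (Ks (m := n + 1) (fun k => F k i q) (C := 1)
        (fun k => (hD k).hFb i q hqb)) = 0 := by
      intro i
      rw [← h1 i]
      exact (interior χ q hlt hqi (fun k => F k i) (fun k => (hD k).hF i)
        (fun k => (hD k).hFb i)).symm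
    have e2 : χ (Ks (m := n + 1) (fun k => G k q) (C := 1) (fun k => (hD k).hGb q hqb)) = 0 := by
      rw [← h2]
      exact (interior χ q hlt hqi G (fun k => (hD k).hG) (fun k => (hD k).hGb)).symm
    have hone : (∑ i, Ks (m := n + 1) (fun k => F k i q) (C := 1)
        (fun k => (hD k).hFb i q hqb) * Ks (fun k => d k i) (fun k => hd k i)) +
        Ks (m := n + 1) (fun k => G k q) (C := 1) (fun k => (hD k).hGb q hqb) *
          Ks (fun k => d0 k) hd0 = 1 := by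
      apply Hs.ext
      rintro ⟨k, z⟩
      refine Eq.trans ?_ (hid k)
      change (∑ i, Ks (m := n + 1) (fun k => F k i q) (C := 1)
        (fun k => (hD k).hFb i q hqb) * Ks (fun k => d k i) (fun k => hd k i)).1 (k, z) +
        G k q * d0 k = _
      rw [Hs.sum_apply]
      rfl
    have h4 := congrArg χ hone
    rw [map_one, map_add, map_sum, map_mul, e2, zero_mul, add_zero] at h4
    have h5 : ∀ i, χ (Ks (m := n + 1) (fun k => F k i q) (C := 1)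
        (fun k => (hD k).hFb i q hqb) * Ks (fun k => d k i) (fun k => hd k i)) = 0 := by
      intro i
      rw [map_mul, e1, zero_mul]
    simp only [h5, Finset.sum_const_zero] at h4
    exact zero_ne_one h4
  · -- boundary
    rw [← hq] at heq1
    obtain ⟨C, hC0, hC⟩ := near (N := N) hδ hr q heq1 hpq
    choose c d g g₀ hc hd hlim hg hg₀ hgb hg₀b hid using fun k => hC (F k) (G k) (hD k)
    have hq1 : χ (cs (Lw q)) = 1 := by
      rw [hLw, inner_self_eq_norm_sq_to_K, heq1]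
      simp
    have e1 : ∀ i, χ (Ks (m := n + 1) (fun k => c k i) (fun k => hc k i)) = 0 := by
      intro i
      have h4 := boundary χ hdom q heq1 hq1 (mks (f := fun k => F k i) (fun k => (hD k).hF i)
        (C := 1) (fun k => (hD k).hFb i) - Ks (m := n + 1) (fun k => c k i) (fun k => hc k i))
        (fun ε hε => ⟨r q ε, hr q ε hε, fun k z hz => hlim k i ε hε z z.2 hz⟩)
      rw [map_sub, h1, zero_sub, neg_eq_zero] at h4
      exact h4
    have hone : (∑ i, Ks (m := n + 1) (fun k => c k i) (fun k => hc k i) *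
        Ks (fun k => d k i) (fun k => hd k i)) +
        (Cs (1/2) * (1 - cs (Lw q))) * mks (f := g) hg (C := C) hgb +
        mks (f := G) (fun k => (hD k).hG) (C := 1) (fun k => (hD k).hGb) *
          mks (f := g₀) hg₀ (C := C) hg₀b = 1 := by
      apply Hs.ext
      rintro ⟨k, z⟩
      refine Eq.trans ?_ (hid k z z.2)
      change (∑ i, Ks (m := n + 1) (fun k => c k i) (fun k => hc k i) *
        Ks (fun k => d k i) (fun k => hd k i)).1 (k, z) +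
        (1/2 * (1 - inner ℂ q (z : V (n + 1)))) * g k z + G k z * g₀ k z = _
      rw [Hs.sum_apply]
      have h4 : (1/2 * (1 - inner ℂ q (z : V (n + 1))) : ℂ) = (1 - inner ℂ q (z : V (n + 1))) / 2 := by
        ring
      rw [h4]
      rfl
    have h4 := congrArg χ hone
    rw [map_one, map_add, map_add, map_sum, map_mul, map_mul χ (mks _ _) _, h2, map_mul, map_sub,
      map_one, hq1, sub_self, mul_zero, zero_mul, zero_mul, add_zero, add_zero] at h4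
    have h5 : ∀ i, χ (Ks (m := n + 1) (fun k => c k i) (fun k => hc k i) *
        Ks (fun k => d k i) (fun k => hd k i)) = 0 := by
      intro i
      rw [map_mul, e1, zero_mul]
    simp only [h5, Finset.sum_const_zero] at h4
    exact zero_ne_one h4

theorem main : Pool.Agent.W732.Cor.S_loc := by
  intro m p hp N δ hδ r hr
  rcases m with _ | n
  · exfalso
    have h0 : p = 0 := Subsingleton.elim _ _
    rw [h0, norm_zero] at hp
    exact zero_ne_one hp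
  by_contra hcon
  have hk : ∀ k : ℕ, ∃ (F : Fin N → V (n + 1) → ℂ) (G : V (n + 1) → ℂ), Dat n N p δ r F G ∧
      ¬ ∃ (g : Fin N → V (n + 1) → ℂ) (g₀ g₁ : V (n + 1) → ℂ),
        (∀ i, DifferentiableOn ℂ (g i) (ball 0 1)) ∧ DifferentiableOn ℂ g₀ (ball 0 1) ∧
        DifferentiableOn ℂ g₁ (ball 0 1) ∧
        (∀ i, ∀ z ∈ ball (0 : V (n + 1)) 1, ‖g i z‖ ≤ (k : ℝ)) ∧
        (∀ z ∈ ball (0 : V (n + 1)) 1, ‖g₀ z‖ ≤ (k : ℝ)) ∧
        (∀ z ∈ ball (0 : V (n + 1)) 1, ‖g₁ z‖ ≤ (k : ℝ)) ∧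
        ∀ z ∈ ball (0 : V (n + 1)) 1, ∑ i, F i z * g i z + G z * g₀ z + inner ℂ p z * g₁ z = 1 := by
    intro k
    by_contra h
    apply hcon
    refine ⟨k, fun F G a b c d e f => ?_⟩
    by_contra h'
    exact h ⟨F, G, ⟨a, b, c, d, e, f⟩, h'⟩
  choose F G hD hS using hk
  obtain ⟨FF, hFF⟩ : ∃ FF : Fin (N + 1 + 1) → Hs (n + 1), FF = Fin.cons
      (mks (f := G) (fun k => (hD k).hG) (C := 1) (fun k => (hD k).hGb))
      (Fin.cons (cs (Lw p)) (fun i => mks (f := fun k => F k i) (fun k => (hD k).hF i) (C := 1)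
      (fun k => (hD k).hFb i))) := ⟨_, rfl⟩
  have hFF0 : FF 0 = mks (f := G) (fun k => (hD k).hG) (C := 1) (fun k => (hD k).hGb) := by
    rw [hFF]; rfl
  have hFF1 : FF (Fin.succ 0) = cs (Lw p) := by rw [hFF]; rfl
  have hFF2 : ∀ i : Fin N, FF i.succ.succ = mks (f := fun k => F k i) (fun k => (hD k).hF i)
      (C := 1) (fun k => (hD k).hFb i) := by intro i; rw [hFF]; rfl
  obtain ⟨Gs, hGs⟩ := approx_G (Hs (n + 1)) (X := univ) ⟨(0, ⟨0, by simp⟩), trivial⟩ FF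
    (fun χ hχ => by
      by_contra hcon2
      push Not at hcon2
      exact no_char p hδ r hr F G hD χ (fun R C hR => hχ R C (fun z _ => hR z))
        (fun i => by rw [← hFF2]; exact hcon2 _) (by rw [← hFF0]; exact hcon2 _)
        (by rw [← hFF1]; exact hcon2 _)) (ε := 1/2) (by norm_num)
  obtain ⟨M, hM⟩ : ∃ M : ℝ, M = ∑ j, ‖Gs j‖ := ⟨_, rfl⟩
  have hMj : ∀ j, ‖Gs j‖ ≤ M := by
    intro j
    rw [hM]
    exact Finset.single_le_sum (f := fun j => ‖Gs j‖) (fun j _ => norm_nonneg _)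
      (Finset.mem_univ j)
  obtain ⟨k, hk⟩ := exists_nat_ge (2 * M)
  apply hS k
  choose g hg hgG using fun j => (Gs j).2 k
  obtain ⟨s, hs⟩ : ∃ s : V (n + 1) → ℂ, s = fun z => ∑ i, F k i z * g i.succ.succ z +
    G k z * g 0 z + inner ℂ p z * g (Fin.succ 0) z := ⟨_, rfl⟩
  have hLd : DifferentiableOn ℂ (fun v : V (n + 1) => (inner ℂ p v : ℂ)) (ball 0 1) :=
    (innerSL ℂ p).differentiable.differentiableOn
  have hsd : DifferentiableOn ℂ s (ball 0 1) := by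
    rw [hs]
    refine DifferentiableOn.add (DifferentiableOn.add ?_ ((hD k).hG.mul (hg 0))) (hLd.mul (hg _))
    exact DifferentiableOn.fun_sum fun i _ => ((hD k).hF i).mul (hg _)
  have hs1 : ∀ z ∈ ball (0 : V (n + 1)) 1, ‖s z - 1‖ ≤ 1 / 2 := by
    intro z hz
    have h1 := hGs (k, ⟨z, hz⟩) trivial
    rw [Fin.sum_univ_succ, Fin.sum_univ_succ, hFF0, hFF1, hgG 0, hgG (Fin.succ 0)] at h1
    refine le_trans (le_of_eq ?_) h1
    congr 2
    rw [hs]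
    have h2 : ∀ i : Fin N, (FF i.succ.succ).1 (k, ⟨z, hz⟩) * (Gs i.succ.succ).1 (k, ⟨z, hz⟩) =
        F k i z * g i.succ.succ z := by
      intro i
      rw [hFF2, hgG]
      rfl
    rw [Finset.sum_congr rfl (fun i _ => h2 i)]
    change ∑ i, F k i z * g i.succ.succ z + G k z * g 0 z + inner ℂ p z * g (Fin.succ 0) z =
      G k z * g 0 z + (inner ℂ p z * g (Fin.succ 0) z + ∑ i, F k i z * g i.succ.succ z)
    ring
  have hs2 : ∀ z ∈ ball (0 : V (n + 1)) 1, 1 / 2 ≤ ‖s z‖ := by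
    intro z hz
    have h1 := hs1 z hz
    have h2 := norm_sub_norm_le (1 : ℂ) (1 - s z)
    rw [norm_one, sub_sub_cancel, norm_sub_rev 1 (s z)] at h2
    linarith
  have hs0 : ∀ z ∈ ball (0 : V (n + 1)) 1, s z ≠ 0 := by
    intro z hz h0
    have h1 := hs2 z hz
    rw [h0, norm_zero] at h1
    norm_num at h1
  have hgd : ∀ j, DifferentiableOn ℂ (fun z => g j z / s z) (ball 0 1) := fun j =>
    ((hg j).mul (hsd.inv hs0)).congr (fun z _ => div_eq_mul_inv _ _)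
  have hgb : ∀ j, ∀ z ∈ ball (0 : V (n + 1)) 1, ‖g j z / s z‖ ≤ (k : ℝ) := by
    intro j z hz
    have h1 : ‖g j z‖ ≤ M := by
      have h2 := (Gs j).1.norm_coe_le_norm (k, ⟨z, hz⟩)
      rw [hgG j] at h2
      exact h2.trans (hMj j)
    rw [norm_div, div_le_iff₀ (by linarith [hs2 z hz])]
    have h3 := hs2 z hz
    have h4 : 0 ≤ M := (norm_nonneg _).trans h1
    nlinarith
  refine ⟨fun i z => g i.succ.succ z / s z, fun z => g 0 z / s z, fun z => g (Fin.succ 0) z / s z,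
    fun i => hgd _, hgd _, hgd _, fun i => hgb _, hgb _, hgb _, fun z hz => ?_⟩
  have h2 : s z = ∑ i, F k i z * g i.succ.succ z + G k z * g 0 z +
      inner ℂ p z * g (Fin.succ 0) z := by rw [hs]
  have h3 : (∑ i, F k i z * g i.succ.succ z + G k z * g 0 z +
      inner ℂ p z * g (Fin.succ 0) z) / s z = 1 := by
    rw [← h2]
    exact div_self (hs0 z hz)
  rw [add_div, add_div, Finset.sum_div] at h3
  simpa only [mul_div_assoc] using h3

end Pool.Agent.W598.Cor
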